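import Pool.Agent.X312.FK.Rk2

/-!
# A gap law for the `ℓ`-adic regulators of `Y × X ^ n`

Let `k` be a number field, `ℓ` a prime, `Y` **any** smooth projective variety over `k`, and let
`X` be a smooth projective variety over `k` such that the numerically trivial self-correspondences
of its powers are nilpotent modulo rational equivalence, and homological and numerical equivalence
agree on its powers (for example an abelian variety or a product of curves). Fix an integer `s`,
and for `Z` smooth projective over `k` let

`r(Z) : ⊕_(2 j - i = s) H^i_M(Y × Z, ℚ(j))_hom ⊗ ℚ_ℓ → ⊕_(2 j - i = s) H^1_st(G_k, H^(i - 1)(Y ×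
Z, ℚ_ℓ(j)))`

be the sum of the `ℓ`-adic regulators. Let `M` be a direct summand of the Chow motive of `X ^ m`,
with coefficients in `ℚ_ℓ`, which is irreducible modulo homological equivalence, and let `D = dim
H(M)` be its rank. Let `ρ(Z)` be the rank of the cycles of all codimensions on `Z` modulo
numerical equivalence, and `b` the sum of the Betti numbers of `X`. Then **the regulator is
bijective for** `Y ⊗ M`, as Q1 says, **or the kernel of** `r(X ^ n)` **or the cokernel of** `r(X ^
n)` **has, for all** `n ≥ 1`, **dimension at least**

`(D - 4 (m + 3) b ^ (m + 5) log (n + 1) / n) ρ(X ^ n)`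

(the dimension may be infinite). So if Q1 is false for `Y × X ^ m` and one `(i, j)` then it is
false for all `Y × X ^ n` with large `n`, for some `(i', j')` with `2 j' - i' = 2 j - i`, and the
sum of the kernels or the sum of the cokernels is very large. The map `r` is defined so that its
image is in `H^1_st` for the classes considered in Q1; otherwise one replaces `H^1_st` by `H^1`.

The proof. Let `e` be the projector of `M`, `P = X ^ m`, and suppose that the kernel of the
regulator is not killed by `e`, or `e` times the target is not in the image; then one considers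
the kernels, or the cokernels. Let `z = e z ≠ 0` be an element of this space for `P`. If `x` is a
self-correspondence of `P` with `x z = 0` then `e x e` is nilpotent, as otherwise some multiple of
it would be an idempotent, equal to `e` by irreducibility and by the nilpotence of numerically
trivial correspondences, and would not kill `z`. So the trace of `e x` vanishes, and the dimension
for `Z` is at least the rank of the trace form `(u, v) ↦ tr (e v u)` on the correspondences
between `P` and `Z`. For `Z = X ^ n` this rank is at least `(D - ε) ρ(X ^ n)`, by the
log-convexity of the sequence of the ranks `ρ(X ^ (2 l))`, by tensor powers, and by the symmetric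
group, which excludes small growth. For the other parity `M` is cut out of `X ^ (m + 1)`.
-/

set_option autoImplicit false

open CategoryTheory AlgebraicGeometry

universe u v w

namespace Pool.Agent.Results.MP_76188c_nt.BijectivityGapLaw

open Pool.Agent.H914 VarClass Obj WeilCohomology
open Pool.Agent.X312.FK (ChowData ChowModule IsRegulator IsAlgClass IrreducibleIn RankGE IndepMod)
open Pool.Agent.X312.FC (rankBound)
open Pool.Agent.Y133.Half (cycRank pw)

variable {k : Type u} [Field k] {𝒱 : VarClass k} {ops : CycleOps 𝒱}
  {W : WeilCohomology.{u, v} ops}

/-- The sum of the Betti numbers of `X`. -/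
noncomputable def totalBetti (W : WeilCohomology.{u, v} ops) (X : 𝒱.Obj) : ℕ :=
  Module.finrank W.K (W.H X)

/-- **The gap law for kernels and cokernels.** In the intended use `C.A Z Z'` is the Chow group of
`Z × Z'` with coefficients in `ℚ_ℓ`, `c Z : S.M Z → T.M Z` is the regulator `r(Z)`, and `e` is the projector
of the motive `M`. Here `pw X m` is the product of `m + 1` copies of `X`. -/
theorem result (C : ChowData W) (hC : C.IsChow) (S T : ChowModule C) (hS : S.IsFunctor)
    (hT : T.IsFunctor) (c : ∀ Z : 𝒱.Obj, S.M Z → T.M Z) (hc : IsRegulator S T c)
    (X : 𝒱.Obj) (hX : ∀ n : ℕ, C.NumNil (pw X n)) (hD : ∀ n : ℕ, HomEqNum W (pw X n))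
    (m : ℕ) (e : C.A (pw X m) (pw X m)) (he : C.comp e e = e)
    (hirr : IrreducibleIn IsAlgClass (C.cl e)) (D : ℕ) (hrk : RankGE (C.cl e) D) :
    ((∀ x : S.M (pw X m), c _ x = 0 → S.act e x = 0) ∧
      ∀ y : T.M (pw X m), ∃ x, c _ x = T.act e y) ∨
    (∀ n : ℕ, IndepMod {x : S.M (pw X n) | c _ x = 0} (⊥ : Submodule W.K (S.M (pw X n)))
      (rankBound D (totalBetti W X) (cycRank ops (pw X n)) m n)) ∨
    ∀ n : ℕ, IndepMod (Set.univ : Set (T.M (pw X n)))
      (Submodule.span W.K (Set.range (c (pw X n))))
      (rankBound D (totalBetti W X) (cycRank ops (pw X n)) m n) :=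
  Pool.Agent.X312.FK.rk_iso hC hS hT hc X hX hD e he hirr hrk

end Pool.Agent.Results.MP_76188c_nt.BijectivityGapLaw
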