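import Pool.Agent.X264.RD.Main

/-!
# The ℓ-adic regulators: reduction to the middle cohomology of rational varieties over `ℚ`
-/

set_option autoImplicit false

open Pool.Agent.X264.RD

namespace Pool.Agent.Results.MP_76188c_nt.MiddleCohomologyOverQ

universe u

/-- **Reduction to the middle cohomology of rational varieties over `ℚ`.** Let `ℓ` be a prime.
(1) The `ℓ`-adic regulators of all smooth projective varieties `X` over all number fields `k` are
injective with image `H^1_st(G_k, H^{i-1}(X̄, ℚ_ℓ(j)))`, for all `i`, `j`, if and only if this is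
true for the rational varieties `X` over `ℚ` and for the middle cohomology, `i - 1 = dim X`.
(2) The same equivalence holds for the regulators on `K_n`, that is, with `2j - i = n`, for each
`n`. -/
theorem result {F : Type} [Field F] (T : Sys.{u} F) (hT : T.IsRegulator) :
    ((∀ (K : T.Fld) (X : T.Var K) (i j : ℤ), (T.dat X i j).Good) ↔
      ∀ (X : T.Var T.Q) (i j : ℤ), T.rat X → (T.dim X : ℤ) + 1 = i → (T.dat X i j).Good) ∧
    ∀ n : ℤ, (∀ (K : T.Fld) (X : T.Var K) (i j : ℤ), 2 * j - i = n → (T.dat X i j).Good) ↔
      ∀ (X : T.Var T.Q) (i j : ℤ), 2 * j - i = n → T.rat X → (T.dim X : ℤ) + 1 = i →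
        (T.dat X i j).Good :=
  ⟨Sys.good_iff hT, Sys.good_iff_index hT⟩

end Pool.Agent.Results.MP_76188c_nt.MiddleCohomologyOverQ
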