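import Pool.Agent.X290.Reg.Ex
import Pool.Agent.X290.Reg.Coh
/-!
# Galois cohomology over `ℚ` at a regular prime

Let `p` be a prime number such that the field of `p`-th roots of unity has no Galois extension of
`p`-power degree, other than itself, which is unramified at all finite primes; by class field theory
these are the regular primes, and the theorem proves this property for `p = 2, 3, 5, 7`. Let `A` be a
Noetherian local ring of residue characteristic `p` (for instance the ring of integers of a finite
extension of `ℚ_p`), let `R : Gal(ℚbar/ℚ) → GL_m(A)` be continuous, unramified outside `p`, and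
residually a sum of characters up to semisimplification, and let `z` be a continuous cocycle with
values in `A^m` which vanishes on the inertia groups at all primes other than `p`. Over every field
that contains `A`, the cocycle `z` is a coboundary if it is one on one inertia group at `p`.
-/

set_option autoImplicit false

open NumberField Matrix IsLocalRing Polynomial

namespace Pool.Agent.Results.MP_76188c_nt.RegularPrimesOverQ

/-- The absolute Galois group of `ℚ`. -/
abbrev G : Type := Gal(AlgebraicClosure ℚ/ℚ)

/-- The ring of all algebraic integers. -/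
abbrev Z : Type := 𝓞 (AlgebraicClosure ℚ)

/-- If `K` is a number field generated by the `p`-th roots of unity, and `L/K` is a Galois extension
of degree a power of `p` which is unramified at all maximal ideals, then `L` has degree `1` over
`K`. -/
def NoUnramified (p : ℕ) : Prop :=
  ∀ (K L : Type) [Field K] [NumberField K] [IsCyclotomicExtension {p} ℚ K] [Field L]
    [NumberField L] [Algebra K L] [IsGalois K L],
    (∀ (Q : Ideal (𝓞 L)) [Q.IsMaximal], Algebra.IsUnramifiedAt (𝓞 K) Q) →
      ∀ k : ℕ, Module.finrank K L = p ^ k → k = 0

/-- The conditions on the ring of coefficients. -/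
def Coefficients (p : ℕ) (A : Type) [CommRing A] [IsLocalRing A] [TopologicalSpace A] : Prop :=
  IsNoetherianRing A ∧ IsAdic (maximalIdeal A) ∧ (p : A) ∈ maximalIdeal A

variable {A : Type} [CommRing A] {m : ℕ}

/-- The inertia group at the prime ideal `P` of the ring of all algebraic integers. -/
def Inertia (P : Ideal Z) : Set G := {τ | ∀ x : Z, τ • x - x ∈ P}

/-- There are an extension `k` of the residue field and characters `χ 1, ..., χ m` with values in
`k` such that the characteristic polynomial of the reduction of `R g` is the product of the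
`X - χ i g`, for all `g`; by Brauer and Nesbitt this says that the semisimplification of the
reduction of `R` over `k` is the sum of the characters `χ i`. -/
def ResiduallyCharacters [IsLocalRing A] (R : G →* GL (Fin m) A) : Prop :=
  ∃ (k : Type) (_ : Field k) (_ : Algebra (ResidueField A) k) (χ : Fin m → (G →* kˣ)), ∀ g,
    (((R g : Matrix (Fin m) (Fin m) A).map (residue A)).map
      (algebraMap (ResidueField A) k)).charpoly = ∏ i, (X - C ((χ i g : kˣ) : k))

/-- `R` is continuous, unramified at all primes that do not lie above `p`, and residually a sum of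
characters. -/
def Representation [IsLocalRing A] [TopologicalSpace A] (p : ℕ) (R : G →* GL (Fin m) A) : Prop :=
  Continuous R ∧
  (∀ P : Ideal Z, P.IsMaximal → (p : Z) ∉ P → ∀ τ ∈ Inertia P, R τ = 1) ∧ ResiduallyCharacters R

/-- `z` is a continuous cocycle, trivial on the inertia groups at all primes that do not lie
above `p`. -/
def Cocycle [TopologicalSpace A] (p : ℕ) (R : G →* GL (Fin m) A) (z : G → Fin m → A) : Prop :=
  Continuous z ∧ (∀ g h, z (g * h) = z g + (R g : Matrix (Fin m) (Fin m) A) *ᵥ z h) ∧
  ∀ P : Ideal Z, P.IsMaximal → (p : Z) ∉ P → ∀ τ ∈ Inertia P, z τ = 0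

/-- On `D`, over `L`, the cocycle `z` is the coboundary of the vector `v`. -/
def Coboundary (R : G →* GL (Fin m) A) (z : G → Fin m → A) {L : Type} [Field L] [Algebra A L]
    (v : Fin m → L) (D : Set G) : Prop :=
  ∀ g ∈ D, (fun i => algebraMap A L (z g i)) =
    (R g : Matrix (Fin m) (Fin m) A).map (algebraMap A L) *ᵥ v - v

/-- The values of `(R, z)` are taken on the inertia group at `P`, and over every field that contains
`A` the cocycle `z` is a coboundary if it is one on this inertia group. -/
def DeterminedAt (R : G →* GL (Fin m) A) (z : G → Fin m → A) (P : Ideal Z) : Prop :=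
  (∀ g, ∃ h ∈ Inertia P, R h = R g ∧ z h = z g) ∧
  ∀ (L : Type) [Field L] [Algebra A L] (v : Fin m → L),
    Coboundary R z v (Inertia P) → Coboundary R z v Set.univ

omit [CommRing A] in
/-- The theorem. -/
theorem result :
    (∀ p : ℕ, p.Prime → NoUnramified p →
      ∀ (m : ℕ) (A : Type) [CommRing A] [IsLocalRing A] [TopologicalSpace A], Coefficients p A →
      ∀ (R : G →* GL (Fin m) A) (z : G → Fin m → A), Representation p R → Cocycle p R z →
      ∀ P : Ideal Z, P.IsMaximal → (p : Z) ∈ P → DeterminedAt R z P) ∧
    NoUnramified 2 ∧ NoUnramified 3 ∧ NoUnramified 5 ∧ NoUnramified 7 := by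
  refine ⟨?_, Pool.Agent.X290.Reg.noUnr2, Pool.Agent.X290.Reg.noUnr3, Pool.Agent.X290.Reg.noUnr5,
    Pool.Agent.X290.Reg.noUnr7⟩
  rintro p hp hNU m A _ _ _ ⟨_, hA, hpA⟩ R z ⟨hR, hur, hres⟩ ⟨hz, hzc, hzur⟩ P hP hpP
  have hpf : Fact p.Prime := ⟨hp⟩
  have h1 : ∀ g, ∃ h ∈ Inertia P, R h = R g ∧ z h = z g := fun g =>
    Pool.Agent.X290.Reg.coh_main2 hNU hA hpA R hR hur hres z hz hzc hzur hP hpP g
  refine ⟨h1, ?_⟩
  intro L _ _ v hv g _
  obtain ⟨h, hh, e1, e2⟩ := h1 g
  rw [← e1, ← e2]
  exact hv h hh

end Pool.Agent.Results.MP_76188c_nt.RegularPrimesOverQ
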